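import Mathlib

set_option autoImplicit false

/-!
# No constant fraction of the weighted reachability of a mixed graph survives in an orientation

Butterfly networks: levels `0, …, k+1`, on each level a copy of `{0,1}^k`; arcs from `(i, x)` to
`(i+1, x)`; for `1 ≤ i ≤ k` an (undirected) edge between `(i, x)` and `(i, x')` when `x` and `x'`
differ exactly in the `i`-th coordinate. All pairs (level `0`, level `k+1`) are reachable. For an
orientation let `ρ i x` be the number of vertices of level `k+1` reachable from `(i, x)`. Then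
`∑ ρ i x ^ 2 ≤ 3 ∑ ρ (i+1) x ^ 2`, so that at most `√12 ^ k` of the `4 ^ k` pairs survive.
-/

namespace Pool.Agent.Results.MP_408802_co.NoConstantFraction

open Relation Finset

/-- A mixed graph with vertex set `V`: a family of edges, indexed by `E`, and a family of arcs,
indexed by `A`. The edge `e` joins the distinct vertices `fst e` and `snd e`, the arc `a` goes from
`tail a` to the distinct vertex `head a`. -/
structure MixedGraph (V E A : Type) where
  fst : E → V
  snd : E → V
  fst_ne_snd : ∀ e, fst e ≠ snd e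
  tail : A → V
  head : A → V
  tail_ne_head : ∀ a, tail a ≠ head a

/-- One step from `x` to `y` in the mixed graph `G`: along an arc (forwards) or along an edge (in
any direction). -/
def MixedGraph.Step {V E A : Type} (G : MixedGraph V E A) (x y : V) : Prop :=
  (∃ a, G.tail a = x ∧ G.head a = y) ∨
    ∃ e, (G.fst e = x ∧ G.snd e = y) ∨ (G.snd e = x ∧ G.fst e = y)

/-- One step from `x` to `y` in the orientation of `G` given by `o`, in which every arc is kept
and the edge `e` is replaced by the arc from `fst e` to `snd e` if `o e = true` and by the arc from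
`snd e` to `fst e` if `o e = false`. -/
def MixedGraph.OStep {V E A : Type} (G : MixedGraph V E A) (o : E → Bool) (x y : V) : Prop :=
  (∃ a, G.tail a = x ∧ G.head a = y) ∨
    ∃ e, (o e = true ∧ G.fst e = x ∧ G.snd e = y) ∨ (o e = false ∧ G.snd e = x ∧ G.fst e = y)

open Classical in
/-- The weighted reachability
`2 ∑ binom (w v) 2 + ∑ w u * w v`, the second sum over all ordered pairs of distinct vertices such
that `v` can be reached from `u` by steps of the relation `step`. -/
noncomputable def weightedReach {V : Type} [Fintype V] (step : V → V → Prop) (w : V → ℕ) : ℕ :=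
  2 * ∑ v, (w v).choose 2 +
    ∑ p ∈ (univ : Finset (V × V)).filter (fun p => p.1 ≠ p.2 ∧ ReflTransGen step p.1 p.2),
      w p.1 * w p.2

open Classical in
lemma weightedReach_le {V : Type} [Fintype V] (step : V → V → Prop) (w : V → ℕ)
    (hw : ∀ v, w v ≤ 1) (T : Finset (V × V))
    (hT : ∀ p : V × V, p.1 ≠ p.2 → ReflTransGen step p.1 p.2 → w p.1 ≠ 0 → w p.2 ≠ 0 → p ∈ T) :
    weightedReach step w ≤ T.card := by
  unfold weightedReach
  have h0 : ∑ v, (w v).choose 2 = 0 := by
    apply Finset.sum_eq_zero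
    intro v _
    have := hw v
    interval_cases w v <;> rfl
  rw [h0, mul_zero, zero_add, card_eq_sum_ones]
  have h1 : ∀ p ∈ (univ : Finset (V × V)).filter
      (fun p => p.1 ≠ p.2 ∧ ReflTransGen step p.1 p.2), w p.1 * w p.2 ≤ if p ∈ T then 1 else 0 := by
    intro p hp
    rw [mem_filter] at hp
    by_cases h : w p.1 = 0 ∨ w p.2 = 0
    · rcases h with h | h <;> rw [h] <;> simp
    · push Not at h
      rw [if_pos (hT p hp.2.1 hp.2.2 h.1 h.2)]
      exact (Nat.mul_le_mul (hw _) (hw _)).trans (by norm_num)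
  refine (Finset.sum_le_sum h1).trans ?_
  rw [← Finset.sum_filter]
  apply Finset.sum_le_sum_of_subset
  intro p hp
  exact (mem_filter.1 hp).2

open Classical in
lemma le_weightedReach {V : Type} [Fintype V] (step : V → V → Prop) (w : V → ℕ)
    (T : Finset (V × V))
    (hT : ∀ p ∈ T, p.1 ≠ p.2 ∧ ReflTransGen step p.1 p.2 ∧ w p.1 = 1 ∧ w p.2 = 1) :
    T.card ≤ weightedReach step w := by
  unfold weightedReach
  refine le_trans ?_ (Nat.le_add_left _ _)
  have h1 : T ⊆ (univ : Finset (V × V)).filter
      (fun p => p.1 ≠ p.2 ∧ ReflTransGen step p.1 p.2) := by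
    intro p hp
    rw [mem_filter]
    exact ⟨mem_univ _, (hT p hp).1, (hT p hp).2.1⟩
  refine le_trans ?_ (Finset.sum_le_sum_of_subset h1)
  rw [card_eq_sum_ones]
  apply Finset.sum_le_sum
  intro p hp
  rw [(hT p hp).2.2.1, (hT p hp).2.2.2]

section butterfly

variable (k : ℕ)

/-- Vertices of the butterfly. -/
abbrev BV := Fin (k + 2) × (Fin k → Bool)

/-- Edges of the butterfly. -/
abbrev BE := {p : Fin k × (Fin k → Bool) // p.2 p.1 = false}

/-- Arcs of the butterfly. -/
abbrev BA := Fin (k + 1) × (Fin k → Bool)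

/-- flip a coordinate -/
def flip (j : Fin k) (x : Fin k → Bool) : Fin k → Bool := Function.update x j (!x j)

/-- the level on which the coordinate `j` is switched -/
def lev (j : Fin k) : Fin (k + 2) := ⟨j.val + 1, by omega⟩

variable {k}

lemma flip_flip (j : Fin k) (x : Fin k → Bool) : flip k j (flip k j x) = x := by
  unfold flip
  simp

lemma flip_apply (j : Fin k) (x : Fin k → Bool) : flip k j x j = !x j := by
  unfold flip
  simp

lemma flip_ne (j : Fin k) (x : Fin k → Bool) : x ≠ flip k j x := by
  intro h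
  have := congrFun h j
  rw [flip_apply] at this
  cases hx : x j <;> simp [hx] at this

variable (k)

/-- The butterfly. -/
def butterfly : MixedGraph (BV k) (BE k) (BA k) where
  fst e := (lev k e.1.1, e.1.2)
  snd e := (lev k e.1.1, flip k e.1.1 e.1.2)
  fst_ne_snd e h := flip_ne _ _ (congrArg Prod.snd h)
  tail a := (a.1.castSucc, a.2)
  head a := (a.1.succ, a.2)
  tail_ne_head a h := by
    have := congrArg Prod.fst h
    simp only at this
    have := congrArg Fin.val this
    simp at this

/-- the weight: `1` on the first and the last level -/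
def wt (v : BV k) : ℕ := if v.1 = 0 ∨ v.1 = Fin.last (k + 1) then 1 else 0

variable {k}

/-- the next level -/
def nxt (j : Fin k) : Fin (k + 2) := ⟨j.val + 2, by omega⟩

/-- the direction of the edge of coordinate `j` at `x` -/
def dir (o : BE k → Bool) (j : Fin k) (x : Fin k → Bool) : Bool :=
  o ⟨(j, Function.update x j false), by simp⟩

lemma dir_flip (o : BE k → Bool) (j : Fin k) (x : Fin k → Bool) :
    dir o j (flip k j x) = dir o j x := by
  unfold dir flip
  simp

lemma dir_of_false (o : BE k → Bool) (j : Fin k) (x : Fin k → Bool) (h : x j = false) :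
    dir o j x = o ⟨(j, x), h⟩ := by
  have hx : Function.update x j false = x := by rw [← h]; exact Function.update_eq_self j x
  unfold dir
  congr 1
  apply Subtype.ext
  simp only [hx]

lemma step_lev (o : BE k → Bool) (j : Fin k) (x : Fin k → Bool) (y : BV k)
    (h : (butterfly k).OStep o (lev k j, x) y) :
    y = (nxt j, x) ∨ (y = (lev k j, flip k j x) ∧ dir o j x = !x j) := by
  rcases h with ⟨⟨i, z⟩, h1, h2⟩ | ⟨⟨⟨i, z⟩, hz⟩, h | h⟩
  · left
    simp only [butterfly, Prod.mk.injEq] at h1 h2
    obtain ⟨h1, rfl⟩ := h1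
    rw [← h2]
    have := congrArg Fin.val h1
    simp only [lev, Fin.val_castSucc] at this
    refine Prod.ext ?_ rfl
    apply Fin.ext
    simp only [nxt, Fin.val_succ]
    omega
  · obtain ⟨ho, h1, h2⟩ := h
    simp only [butterfly, Prod.mk.injEq] at h1 h2
    obtain ⟨h1, rfl⟩ := h1
    have := congrArg Fin.val h1
    simp only [lev] at this
    have hij : i = j := Fin.ext (by omega)
    subst hij
    right
    refine ⟨h2.symm, ?_⟩
    have hz' : z i = false := hz
    rw [dir_of_false o i z hz', hz', ho]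
    rfl
  · obtain ⟨ho, h1, h2⟩ := h
    simp only [butterfly, Prod.mk.injEq] at h1 h2
    obtain ⟨h1, rfl⟩ := h1
    have := congrArg Fin.val h1
    simp only [lev] at this
    have hij : i = j := Fin.ext (by omega)
    subst hij
    right
    have hz' : z i = false := hz
    refine ⟨?_, ?_⟩
    · rw [flip_flip]; exact h2.symm
    · rw [dir_flip, dir_of_false o i z hz', flip_apply, hz', ho]
      rfl

lemma no_step_last (o : BE k → Bool) (x : Fin k → Bool) (y : BV k) :
    ¬ (butterfly k).OStep o (Fin.last (k + 1), x) y := by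
  rintro (⟨⟨i, z⟩, h1, h2⟩ | ⟨⟨⟨i, z⟩, hz⟩, h | h⟩)
  · simp only [butterfly, Prod.mk.injEq] at h1
    have := congrArg Fin.val h1.1
    simp only [Fin.val_castSucc, Fin.val_last] at this
    omega
  · obtain ⟨ho, h1, h2⟩ := h
    simp only [butterfly, Prod.mk.injEq] at h1
    have := congrArg Fin.val h1.1
    simp only [lev, Fin.val_last] at this
    omega
  · obtain ⟨ho, h1, h2⟩ := h
    simp only [butterfly, Prod.mk.injEq] at h1
    have := congrArg Fin.val h1.1
    simp only [lev, Fin.val_last] at this
    omega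

lemma step_zero (o : BE k → Bool) (x : Fin k → Bool) (y : BV k)
    (h : (butterfly k).OStep o (0, x) y) : y = (1, x) := by
  rcases h with ⟨⟨i, z⟩, h1, h2⟩ | ⟨⟨⟨i, z⟩, hz⟩, h | h⟩
  · simp only [butterfly, Prod.mk.injEq] at h1 h2
    obtain ⟨h1, rfl⟩ := h1
    rw [← h2]
    have := congrArg Fin.val h1
    simp only [Fin.val_castSucc, Fin.val_zero] at this
    refine Prod.ext ?_ rfl
    apply Fin.ext
    simp [this]
  · obtain ⟨ho, h1, h2⟩ := h
    simp only [butterfly, Prod.mk.injEq] at h1
    have := congrArg Fin.val h1.1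
    simp [lev] at this
  · obtain ⟨ho, h1, h2⟩ := h
    simp only [butterfly, Prod.mk.injEq] at h1
    have := congrArg Fin.val h1.1
    simp [lev] at this

/-- `(last, t)` can be reached from `v` -/
def Rch (o : BE k → Bool) (v : BV k) (t : Fin k → Bool) : Prop :=
  ReflTransGen ((butterfly k).OStep o) v (Fin.last (k + 1), t)

lemma rch_last (o : BE k → Bool) (x t : Fin k → Bool) (h : Rch o (Fin.last (k + 1), x) t) :
    t = x := by
  rcases ReflTransGen.cases_head h with h | ⟨y, h, _⟩
  · exact (congrArg Prod.snd h).symm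
  · exact absurd h (no_step_last o x y)

lemma rch_zero (o : BE k → Bool) (x t : Fin k → Bool) (h : Rch o (0, x) t) : Rch o (1, x) t := by
  rcases ReflTransGen.cases_head h with h | ⟨y, h, h'⟩
  · have := congrArg Fin.val (congrArg Prod.fst h)
    simp at this
  · rw [step_zero o x y h] at h'
    exact h'

lemma lev_ne_last (j : Fin k) : lev k j ≠ Fin.last (k + 1) := by
  intro h
  have := congrArg Fin.val h
  simp only [lev, Fin.val_last] at this
  omega

lemma rch_A (o : BE k → Bool) (j : Fin k) (x t : Fin k → Bool) (hd : dir o j x ≠ !x j)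
    (h : Rch o (lev k j, x) t) : Rch o (nxt j, x) t := by
  rcases ReflTransGen.cases_head h with h | ⟨y, h, h'⟩
  · exact absurd (congrArg Prod.fst h) (lev_ne_last j)
  · rcases step_lev o j x y h with rfl | ⟨_, h2⟩
    · exact h'
    · exact absurd h2 hd

lemma rch_B (o : BE k → Bool) (j : Fin k) (x t : Fin k → Bool) (hd : dir o j x = !x j)
    (h : Rch o (lev k j, x) t) : Rch o (nxt j, x) t ∨ Rch o (nxt j, flip k j x) t := by
  rcases ReflTransGen.cases_head h with h | ⟨y, h, h'⟩
  · exact absurd (congrArg Prod.fst h) (lev_ne_last j)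
  · rcases step_lev o j x y h with rfl | ⟨rfl, h2⟩
    · exact Or.inl h'
    · right
      apply rch_A o j (flip k j x) t _ h'
      rw [dir_flip, flip_apply, hd]
      cases x j <;> simp

open Classical in
/-- the set of vertices of the last level reachable from `v` -/
noncomputable def S (o : BE k → Bool) (v : BV k) : Finset (Fin k → Bool) :=
  univ.filter fun t => Rch o v t

lemma mem_S (o : BE k → Bool) (v : BV k) (t : Fin k → Bool) : t ∈ S o v ↔ Rch o v t := by
  simp [S]

lemma card_last (o : BE k → Bool) (x : Fin k → Bool) : (S o (Fin.last (k + 1), x)).card = 1 := by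
  rw [card_eq_one]
  refine ⟨x, ?_⟩
  ext t
  rw [mem_S, mem_singleton]
  constructor
  · exact rch_last o x t
  · rintro rfl
    exact ReflTransGen.refl

lemma card_A (o : BE k → Bool) (j : Fin k) (x : Fin k → Bool) (hd : dir o j x ≠ !x j) :
    (S o (lev k j, x)).card ≤ (S o (nxt j, x)).card := by
  apply card_le_card
  intro t ht
  rw [mem_S] at ht ⊢
  exact rch_A o j x t hd ht

lemma card_B (o : BE k → Bool) (j : Fin k) (x : Fin k → Bool) (hd : dir o j x = !x j) :
    (S o (lev k j, x)).card ≤ (S o (nxt j, x)).card + (S o (nxt j, flip k j x)).card := by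
  classical
  refine le_trans (card_le_card ?_) (card_union_le _ _)
  intro t ht
  rw [mem_S] at ht
  rw [mem_union, mem_S, mem_S]
  exact rch_B o j x t hd ht

lemma sq_ineq (p q a b : ℕ) (hp : p ≤ a + b) (hq : q ≤ b) :
    p ^ 2 + q ^ 2 ≤ 3 * (a ^ 2 + b ^ 2) := by
  have h1 : p ^ 2 ≤ (a + b) ^ 2 := Nat.pow_le_pow_left hp 2
  have h2 : q ^ 2 ≤ b ^ 2 := Nat.pow_le_pow_left hq 2
  have h3 : (a + b) ^ 2 + b ^ 2 ≤ 3 * (a ^ 2 + b ^ 2) := by
    zify
    nlinarith [sq_nonneg ((a : ℤ) - b), sq_nonneg (a : ℤ)]
  omega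

lemma pair_ineq (o : BE k → Bool) (j : Fin k) (x : Fin k → Bool) :
    (S o (lev k j, x)).card ^ 2 + (S o (lev k j, flip k j x)).card ^ 2 ≤
      3 * ((S o (nxt j, x)).card ^ 2 + (S o (nxt j, flip k j x)).card ^ 2) := by
  by_cases hd : dir o j x = !x j
  · apply sq_ineq
    · exact card_B o j x hd
    · apply card_A
      rw [dir_flip, flip_apply, hd]
      cases x j <;> simp
  · have hd' : dir o j (flip k j x) = !(flip k j x) j := by
      rw [dir_flip, flip_apply]
      cases h1 : x j <;> cases h2 : dir o j x <;> simp_all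
    have h1 := card_B o j (flip k j x) hd'
    rw [flip_flip] at h1
    have h2 := card_A o j x hd
    have := sq_ineq _ _ _ _ h1 h2
    omega

/-- flipping as a permutation -/
def flipE (j : Fin k) : (Fin k → Bool) ≃ (Fin k → Bool) where
  toFun := flip k j
  invFun := flip k j
  left_inv := flip_flip j
  right_inv := flip_flip j

lemma sum_ineq (o : BE k → Bool) (j : Fin k) :
    ∑ x, (S o (lev k j, x)).card ^ 2 ≤ 3 * ∑ x, (S o (nxt j, x)).card ^ 2 := by
  have h1 : ∑ x, (S o (lev k j, flip k j x)).card ^ 2 = ∑ x, (S o (lev k j, x)).card ^ 2 :=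
    Equiv.sum_comp (flipE j) (fun x => (S o (lev k j, x)).card ^ 2)
  have h2 : ∑ x, (S o (nxt j, flip k j x)).card ^ 2 = ∑ x, (S o (nxt j, x)).card ^ 2 :=
    Equiv.sum_comp (flipE j) (fun x => (S o (nxt j, x)).card ^ 2)
  have h3 := Finset.sum_le_sum (fun x (_ : x ∈ (univ : Finset (Fin k → Bool))) => pair_ineq o j x)
  rw [sum_add_distrib, ← mul_sum, sum_add_distrib, h1, h2] at h3
  omega

lemma sum_level (o : BE k → Bool) (n : ℕ) (hn : n ≤ k) :
    ∑ x, (S o ((⟨k + 1 - n, by omega⟩ : Fin (k + 2)), x)).card ^ 2 ≤ 3 ^ n * 2 ^ k := by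
  induction n with
  | zero =>
    have : (⟨k + 1 - 0, by omega⟩ : Fin (k + 2)) = Fin.last (k + 1) := by
      apply Fin.ext; simp
    rw [this]
    simp [card_last]
  | succ n ih =>
    have ih := ih (by omega)
    have h := sum_ineq o (⟨k - n - 1, by omega⟩ : Fin k)
    have e1 : lev k (⟨k - n - 1, by omega⟩ : Fin k) = ⟨k + 1 - (n + 1), by omega⟩ := by
      apply Fin.ext; simp only [lev]; omega
    have e2 : nxt (⟨k - n - 1, by omega⟩ : Fin k) = ⟨k + 1 - n, by omega⟩ := by
      apply Fin.ext; simp only [nxt]; omega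
    rw [e1, e2] at h
    calc _ ≤ _ := h
      _ ≤ 3 * (3 ^ n * 2 ^ k) := Nat.mul_le_mul_left 3 ih
      _ = _ := by ring

lemma sum_zero_sq (o : BE k → Bool) : (∑ x, (S o ((0 : Fin (k + 2)), x)).card) ^ 2 ≤ 12 ^ k := by
  have h1 : ∑ x, (S o ((0 : Fin (k + 2)), x)).card ≤ ∑ x, (S o ((1 : Fin (k + 2)), x)).card := by
    apply Finset.sum_le_sum
    intro x _
    apply card_le_card
    intro t ht
    rw [mem_S] at ht ⊢
    exact rch_zero o x t ht
  have h2 := sum_level o k le_rfl
  have e : (⟨k + 1 - k, by omega⟩ : Fin (k + 2)) = 1 := by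
    apply Fin.ext; simp
  rw [e] at h2
  have h3 : (∑ x, (S o ((1 : Fin (k + 2)), x)).card) ^ 2 ≤
      (univ : Finset (Fin k → Bool)).card * ∑ x, (S o ((1 : Fin (k + 2)), x)).card ^ 2 :=
    sq_sum_le_card_mul_sum_sq
  have h4 : (univ : Finset (Fin k → Bool)).card = 2 ^ k := by simp
  rw [h4] at h3
  calc _ ≤ (∑ x, (S o ((1 : Fin (k + 2)), x)).card) ^ 2 := Nat.pow_le_pow_left h1 2
    _ ≤ _ := h3
    _ ≤ 2 ^ k * (3 ^ k * 2 ^ k) := Nat.mul_le_mul_left _ h2
    _ = 12 ^ k := by
      rw [← mul_assoc, mul_comm (2 ^ k) (3 ^ k), mul_assoc, ← mul_pow, ← mul_pow]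
      norm_num

lemma reach_zero_or_last (o : BE k → Bool) (u v : BV k) (huv : u ≠ v)
    (h : ReflTransGen ((butterfly k).OStep o) u v) (hu : u.1 = 0 ∨ u.1 = Fin.last (k + 1)) :
    u.1 = 0 ∧ v.1 ≠ 0 := by
  have hmono : ∀ x y : BV k, (butterfly k).OStep o x y → x.1 ≤ y.1 := by
    intro x y hxy
    rcases hxy with ⟨⟨i, z⟩, h1, h2⟩ | ⟨⟨⟨i, z⟩, hz⟩, h | h⟩
    · rw [← h1, ← h2]
      simp only [butterfly]
      exact (Fin.castSucc_lt_succ (i := i)).le
    · obtain ⟨_, h1, h2⟩ := h
      rw [← h1, ← h2]
      simp [butterfly]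
    · obtain ⟨_, h1, h2⟩ := h
      rw [← h1, ← h2]
      simp [butterfly]
  have hmono' : ∀ x y : BV k, ReflTransGen ((butterfly k).OStep o) x y → x.1 ≤ y.1 := by
    intro x y hxy
    induction hxy with
    | refl => exact le_rfl
    | tail _ h2 ih => exact ih.trans (hmono _ _ h2)
  obtain ⟨i, x⟩ := u
  rcases hu with hu | hu
  · simp only at hu
    subst hu
    refine ⟨rfl, ?_⟩
    rcases ReflTransGen.cases_head h with h | ⟨y, h, h'⟩
    · exact absurd h huv
    · rw [step_zero o x y h] at h'
      have := hmono' _ _ h'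
      intro h0
      rw [h0] at this
      have := Fin.le_def.mp this
      simp at this
  · simp only at hu
    subst hu
    rcases ReflTransGen.cases_head h with h | ⟨y, h, h'⟩
    · exact absurd h huv
    · exact absurd h (no_step_last o x y)

lemma upper (o : BE k → Bool) :
    weightedReach ((butterfly k).OStep o) (wt k) ≤ ∑ x, (S o ((0 : Fin (k + 2)), x)).card := by
  classical
  have h1 : ∑ x, (S o ((0 : Fin (k + 2)), x)).card =
      ((univ : Finset (Fin k → Bool)).sigma fun x => S o ((0 : Fin (k + 2)), x)).card := by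
    rw [card_sigma]
  rw [h1]
  refine (weightedReach_le _ _ (fun v => by unfold wt; split_ifs <;> simp)
    (((univ : Finset (Fin k → Bool)).sigma fun x => S o ((0 : Fin (k + 2)), x)).image
      (fun q => (((0 : Fin (k + 2)), q.1), (Fin.last (k + 1), q.2)))) ?_).trans card_image_le
  intro p hne hr hw1 hw2
  have hw1' : p.1.1 = 0 ∨ p.1.1 = Fin.last (k + 1) := by
    by_contra h
    apply hw1
    simp [wt, h]
  have hw2' : p.2.1 = 0 ∨ p.2.1 = Fin.last (k + 1) := by
    by_contra h
    apply hw2
    simp [wt, h]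
  obtain ⟨h3, h4⟩ := reach_zero_or_last o p.1 p.2 hne hr hw1'
  have h5 := hw2'.resolve_left h4
  obtain ⟨⟨i, x⟩, ⟨j, y⟩⟩ := p
  simp only at h3 h5
  subst h3
  subst h5
  rw [mem_image]
  refine ⟨⟨x, y⟩, ?_, rfl⟩
  rw [mem_sigma]
  exact ⟨mem_univ _, (mem_S _ _ _).2 hr⟩

/-- the strings interpolating between `x` and `t` -/
def mix (x t : Fin k → Bool) (i : ℕ) : Fin k → Bool := fun j => if j.val < i then t j else x j

lemma reach_mix (x t : Fin k → Bool) (i : ℕ) (hi : i ≤ k) :
    ReflTransGen (butterfly k).Step (0, x) ((⟨i + 1, by omega⟩ : Fin (k + 2)), mix x t i) := by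
  induction i with
  | zero =>
    have : mix x t 0 = x := by
      funext j; simp [mix]
    rw [this]
    refine ReflTransGen.single (Or.inl ⟨(0, x), ?_, ?_⟩)
    · simp [butterfly]
    · simp only [butterfly]
      rfl
  | succ i ih =>
    have ih := ih (by omega)
    have hj : i < k := by omega
    have h1 : ReflTransGen (butterfly k).Step ((⟨i + 1, by omega⟩ : Fin (k + 2)), mix x t i)
        ((⟨i + 1, by omega⟩ : Fin (k + 2)), mix x t (i + 1)) := by
      by_cases hx : x ⟨i, hj⟩ = t ⟨i, hj⟩
      · have : mix x t (i + 1) = mix x t i := by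
          funext j
          unfold mix
          by_cases h : j.val = i
          · have hj' : j = ⟨i, hj⟩ := Fin.ext h
            subst hj'
            simp [hx]
          · by_cases h' : j.val < i
            · simp [h', Nat.lt_succ_of_lt h']
            · have : ¬ j.val < i + 1 := by omega
              simp [h', this]
        rw [this]
      · have hfl : mix x t (i + 1) = flip k ⟨i, hj⟩ (mix x t i) := by
          funext j
          by_cases h : j = ⟨i, hj⟩
          · subst h
            rw [flip_apply]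
            simp only [mix, lt_self_iff_false, if_false, Nat.lt_succ_self, if_true]
            cases h1 : x ⟨i, hj⟩ <;> cases h2 : t ⟨i, hj⟩ <;> simp_all
          · have h' : j.val ≠ i := fun e => h (Fin.ext e)
            unfold flip
            rw [Function.update_of_ne h]
            unfold mix
            by_cases h'' : j.val < i
            · simp [h'', Nat.lt_succ_of_lt h'']
            · have : ¬ j.val < i + 1 := by omega
              simp [h'', this]
        rw [hfl]
        refine ReflTransGen.single (Or.inr ?_)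
        by_cases hb : mix x t i ⟨i, hj⟩ = false
        · exact ⟨⟨(⟨i, hj⟩, mix x t i), hb⟩, Or.inl ⟨rfl, rfl⟩⟩
        · refine ⟨⟨(⟨i, hj⟩, flip k ⟨i, hj⟩ (mix x t i)), ?_⟩, Or.inr ⟨?_, rfl⟩⟩
          · show flip k ⟨i, hj⟩ (mix x t i) ⟨i, hj⟩ = false
            rw [flip_apply]
            cases h3 : mix x t i ⟨i, hj⟩ <;> simp_all
          · simp only [butterfly]
            rw [flip_flip]
            rfl
    refine (ih.trans h1).trans (ReflTransGen.single (Or.inl
      ⟨((⟨i + 1, by omega⟩ : Fin (k + 1)), mix x t (i + 1)), ?_, ?_⟩))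
    · rfl
    · rfl

lemma reach_all (x t : Fin k → Bool) :
    ReflTransGen (butterfly k).Step (0, x) (Fin.last (k + 1), t) := by
  have h := reach_mix x t k le_rfl
  have e1 : (⟨k + 1, by omega⟩ : Fin (k + 2)) = Fin.last (k + 1) := rfl
  have e2 : mix x t k = t := by
    funext j
    simp [mix, j.2]
  rw [e1, e2] at h
  exact h

lemma lower : 4 ^ k ≤ weightedReach (butterfly k).Step (wt k) := by
  classical
  let f : (Fin k → Bool) × (Fin k → Bool) → BV k × BV k :=
    fun p => ((0, p.1), (Fin.last (k + 1), p.2))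
  have hf : Function.Injective f := by
    rintro ⟨a, b⟩ ⟨c, d⟩ h
    simp only [f, Prod.mk.injEq, true_and] at h
    rw [h.1, h.2]
  have h2 : (univ.image f).card = 4 ^ k := by
    rw [card_image_of_injective _ hf]
    simp only [card_univ, Fintype.card_prod, Fintype.card_pi, Fintype.card_bool,
      prod_const, Fintype.card_fin]
    rw [← mul_pow]
    norm_num
  rw [← h2]
  apply le_weightedReach
  intro p hp
  rw [mem_image] at hp
  obtain ⟨q, _, rfl⟩ := hp
  refine ⟨?_, reach_all _ _, ?_, ?_⟩
  · intro h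
    have := congrArg Fin.val (congrArg Prod.fst h)
    simp [f] at this
  · simp [f, wt]
  · simp [f, wt]

end butterfly

/-- For every `α > 0` there are a finite mixed graph `G` and weights `w : V → ℕ` (with values in
`{0, 1}`) such that every orientation of `G` has weighted reachability less than `α` times the
weighted reachability of `G`. -/
theorem result (α : ℝ) (hα : 0 < α) :
    ∃ (V E A : Type) (_ : Fintype V) (_ : Finite E) (_ : Finite A) (G : MixedGraph V E A)
      (w : V → ℕ), (∀ v, w v ≤ 1) ∧
      ∀ o : E → Bool, (weightedReach (G.OStep o) w : ℝ) < α * weightedReach G.Step w := by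
  obtain ⟨k, hk⟩ := exists_pow_lt_of_lt_one (pow_pos hα 2) (by norm_num : (3 / 4 : ℝ) < 1)
  refine ⟨BV k, BE k, BA k, inferInstance, inferInstance, inferInstance, butterfly k, wt k,
    fun v => by unfold wt; split_ifs <;> simp, fun o => ?_⟩
  have h1 : ((weightedReach ((butterfly k).OStep o) (wt k) : ℕ) : ℝ) ^ 2 ≤ 12 ^ k := by
    have h := (Nat.pow_le_pow_left (upper o) 2).trans (sum_zero_sq o)
    exact_mod_cast h
  have h2 : ((4 : ℝ) ^ k) ≤ (weightedReach (butterfly k).Step (wt k) : ℕ) := by
    exact_mod_cast lower (k := k)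
  have h3 : ((weightedReach ((butterfly k).OStep o) (wt k) : ℕ) : ℝ) < α * 4 ^ k := by
    apply lt_of_pow_lt_pow_left₀ 2 (by positivity)
    refine lt_of_le_of_lt h1 ?_
    have e : ((α * 4 ^ k) ^ 2 : ℝ) = α ^ 2 * 16 ^ k := by
      rw [mul_pow, ← pow_mul, mul_comm k 2, pow_mul]; norm_num
    have e' : (12 : ℝ) ^ k = (3 / 4) ^ k * 16 ^ k := by
      rw [← mul_pow]; norm_num
    rw [e, e']
    exact mul_lt_mul_of_pos_right hk (by positivity)
  exact lt_of_lt_of_le h3 (mul_le_mul_of_nonneg_left h2 hα.le)

end Pool.Agent.Results.MP_408802_co.NoConstantFraction
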